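import Pool.Agent.H687.CD.Main

/-!
# Learning DNF formulas with bounded codegree from uniform random examples

`DNFCoDeg c k φ` says that any `c` variables occur together (negated or not) in at most `k` terms
of the DNF formula `φ`; in other words, the incidence graph of variables and terms contains no
complete bipartite graph with `c` variables and `k + 1` terms. There is no restriction on the
number or the width of the terms, on the signs of the literals, or on the number of terms which
contain a given variable. For all constants `c` and `k` and every constant accuracy these formulas
are learnable in polynomial time from uniform random examples.
-/

namespace Pool.Agent.Results.MP_cba12a_lc.BoundedCodegree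

open Pool.Agent.H687.CD Pool.Agent.H685R2.RK

/-- For all `c` and `k`, the DNF formulas in which any `c` variables occur together in at most `k`
terms are learnable in polynomial time from uniform random examples with every constant
accuracy. -/
theorem result (c k : ℕ) :
    ConstLearnable (fun n => {f | ∃ φ : DNF n, DNFCoDeg c k φ ∧ f = φ.eval}) :=
  Pool.Agent.NPC.H687CD.learnable_codeg c k

end Pool.Agent.Results.MP_cba12a_lc.BoundedCodegree
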